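import Pool.Agent.Lib_helper68.OCN.YcJ0

/-!
# MP_aeb124_co: the number game (block N), the step inequalities

The changes of the potentials `Psi`, `Vee`, `Pee` in one step. The new virtual data are called `v'`.
-/

set_option autoImplicit false

namespace Pool.Agent.OCN.YC

/-! ### pure inequalities -/

theorem mx_sub (x : ℤ) : (max 0 x) ^ 2 - (max 0 (x - 1)) ^ 2 ≤ 2 * max 0 x ∧
    2 * max 0 x - 1 ≤ (max 0 x) ^ 2 - (max 0 (x - 1)) ^ 2 := by
  rcases le_or_gt x 0 with h | h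
  · rw [max_eq_left h, max_eq_left (by linarith)]
    norm_num
  · have h' : 1 ≤ x := h
    rw [max_eq_right h.le, max_eq_right (by linarith)]
    constructor <;> linarith

/-- `m` falls by one -/
theorem pS_m {f m c z X m' z' X' : ℤ} (hm : m' + 1 = m) :
    pS f m' c z' X' + 4 * max 0 (c + m - f) ≤ pS f m c z X + 2 + 8 * (z - z') + 8 * (X' - X) := by
  unfold pS
  have h1 := (mx_sub (c + m - f)).2
  have h2 : c + m - f - 1 = c + m' - f := by rw [← hm]; ring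
  rw [h2] at h1
  linarith

/-- `m` falls by one -/
theorem pH_m {f m c m' : ℤ} (hm : m' + 1 = m) :
    pH f m' c + 16 * c + 8 * m + 56 ≤
      pH f m c + 8 * max 0 (c + m - f) + 8 * max 0 (c - f - m) := by
  unfold pH
  have h1 := (mx_sub (c + m - f)).1
  have h2 : c + m - f - 1 = c + m' - f := by rw [← hm]; ring
  rw [h2] at h1
  have h3 : (max 0 (m' - c)) ^ 2 ≤ (max 0 (m - c)) ^ 2 :=
    pow_le_pow_left₀ (le_max_left _ _) (max_le_max le_rfl (by linarith)) 2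
  have h4 : (max 0 (c - f - m')) ^ 2 ≤ (max 0 (c - f - m)) ^ 2 + 2 * max 0 (c - f - m) + 1 := by
    have h5 : max 0 (c - f - m') ≤ max 0 (c - f - m) + 1 := by
      refine max_le ?_ ?_
      · have := le_max_left (0 : ℤ) (c - f - m)
        linarith
      · have := le_max_right (0 : ℤ) (c - f - m)
        linarith
    have h6 := pow_le_pow_left₀ (le_max_left _ _) h5 2
    linarith
  have h5 : m = m' + 1 := hm.symm
  subst h5
  linarith

/-- `m` falls by one, the survivors -/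
theorem pA_m {f m n d p m' n' p' : ℤ} (hm : m' + 1 = m) (hn : n' = n + 1) (hp : p' ≤ p + 1) :
    pA f m' n' d p' + 8 * (n - (d + m - f)) ≤ pA f m n d p := by
  unfold pA
  subst hn hm
  linarith

theorem pP_m {f m c z X o m' z' X' : ℤ} (hm : m' + 1 = m) :
    pP f m' c z' X' o + 8 * max 0 (c - f) + 4 = pP f m c z X o + 8 * (z - z') + 8 * (X' - X) +
      8 * m := by
  unfold pP
  subst hm
  ring

/-! ### the attack of a base element or of a main start -/

/-- the attack of a base element; `j = 0`: the attack of a main start -/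
theorem Psi_T0 {P : Par} {o ra ra' I j : ℕ} {v v' : Vd} (hE : v'.E = v.E) (hm : v'.m + 1 = v.m)
    (hc : v'.c = v.c) (hX : j + v'.X + v.z ≤ v.X + v'.z + v.c + 2) (hI : o + ra' ≤ I + j + ra) :
    Psi P (o + 1) ra v + 8 * v.E + 8 * v.c + 8 * v.m + 34 ≤ Psi P o ra' v' + 8 * I +
      4 * max 0 ((v.c : ℤ) + v.m - P.f) + 8 * max 0 ((v.c : ℤ) - P.f - v.m) := by
  unfold Psi pQ
  have h1 := pS_m (f := P.f) (m := v.m) (c := v.c) (z := v.z) (X := v.X) (m' := v'.m) (z' := v'.z)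
    (X' := v'.X) (by exact_mod_cast hm)
  have h2 := pH_m (f := P.f) (m := v.m) (c := v.c) (m' := v'.m) (by exact_mod_cast hm)
  rw [hE, hc]
  have hX' : (j : ℤ) + v'.X + v.z ≤ v.X + v'.z + v.c + 2 := by exact_mod_cast hX
  have hI' : (o : ℤ) + ra' ≤ I + j + ra := by exact_mod_cast hI
  have hm' : (v'.m : ℤ) + 1 = v.m := by exact_mod_cast hm
  have e1 : ((o + 1 : ℕ) : ℤ) = o + 1 := by push_cast; ring
  rw [e1]
  nlinarith

theorem Psi_T {P : Par} {o ra ra' I j : ℕ} {v v' : Vd} (hE : v'.E = v.E) (hm : v'.m + 1 = v.m)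
    (hc : v'.c = v.c) (hX : j + v'.X + v.z ≤ v.X + v'.z + v.c + 2) (hI : o + ra' ≤ I + j + ra)
    (hy : v.c ≤ P.f + v.m + 13) :
    Psi P (o + 1) ra v + 8 * v.E + 8 * v.c ≤ Psi P o ra' v' + 8 * I + 122 := by
  have h := Psi_T0 (P := P) hE hm hc hX hI
  have hy' : (v.c : ℤ) ≤ P.f + v.m + 13 := by exact_mod_cast hy
  have h3 : max 0 ((v.c : ℤ) - P.f - v.m) ≤ 13 := max_le (by norm_num) (by linarith)
  have h4 : max 0 ((v.c : ℤ) + v.m - P.f) ≤ 2 * v.m + 13 := max_le (by omega) (by linarith)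
  linarith

/-- the attack of a base element or of a main start, no lag -/
theorem Psi_T2 {P : Par} {o ra ra' I j : ℕ} {v v' : Vd} (hE : v'.E = v.E) (hm : v'.m + 1 = v.m)
    (hc : v'.c = v.c) (hX : j + v'.X + v.z ≤ v.X + v'.z + v.c + 2) (hI : o + ra' ≤ I + j + ra)
    (hy : v.c ≤ P.f + v.m) :
    Psi P (o + 1) ra v + 8 * v.E + 8 * v.c + 34 ≤ Psi P o ra' v' + 8 * I := by
  have h := Psi_T0 (P := P) hE hm hc hX hI
  have hy' : (v.c : ℤ) ≤ P.f + v.m := by exact_mod_cast hy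
  have h3 : max 0 ((v.c : ℤ) - P.f - v.m) = 0 := max_eq_left (by linarith)
  have h4 : max 0 ((v.c : ℤ) + v.m - P.f) ≤ 2 * v.m := max_le (by omega) (by linarith)
  linarith

/-- the attack of a base element or of a main start -/
theorem Psi_T1 {P : Par} {o ra ra' I j : ℕ} {v v' : Vd} (hE : v'.E = v.E) (hm : v'.m + 1 = v.m)
    (hc : v'.c = v.c) (hX : j + v'.X + v.z ≤ v.X + v'.z + v.c + 2) (hI : o + ra' ≤ I + j + ra)
    (hy : v.c ≤ P.f + v.m + 13) :
    Psi P (o + 1) ra v ≤ Psi P o ra' v' + 8 * I + 10 := by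
  rcases le_or_gt v.c (P.f + v.m) with hcf | hcf
  · have h := Psi_T2 (P := P) hE hm hc hX hI hcf
    omega
  · have h := Psi_T0 (P := P) hE hm hc hX hI
    have hy' : (v.c : ℤ) ≤ P.f + v.m + 13 := by exact_mod_cast hy
    have h3 : max 0 ((v.c : ℤ) - P.f - v.m) = (v.c : ℤ) - P.f - v.m := max_eq_right (by omega)
    have h4 : max 0 ((v.c : ℤ) + v.m - P.f) = (v.c : ℤ) + v.m - P.f := max_eq_right (by omega)
    rw [h3, h4] at h
    omega

theorem Vee_T {P : Par} {o ra ra' I j : ℕ} {v v' : Vd} (hE : v'.E = v.E) (hm : v'.m + 1 = v.m)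
    (hc : v'.c = v.c) (hX : j + v'.X + v.z ≤ v.X + v'.z + v.c + 2) (hI : o + ra' ≤ I + j + ra)
    (hn' : v'.n = v.n + 1) (hd' : v'.d = v.d) (hp' : v'.p ≤ v.p + 1) (hd : v.d ≤ P.f)
    (hn : 3 * P.f + v.c + v.m + 4 * P.K + 100 ≤ 2 * v.n) :
    Vee P (o + 1) ra v + 8 * v.E + 8 * P.f + 16 * P.K + 378 ≤ Vee P o ra' v' + 8 * I := by
  unfold Vee pQ
  have h1 := pS_m (f := P.f) (m := v.m) (c := v.c) (z := v.z) (X := v.X) (m' := v'.m) (z' := v'.z)
    (X' := v'.X) (by exact_mod_cast hm)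
  have h2 := pA_m (f := P.f) (m := v.m) (n := v.n) (d := v.d) (p := v.p) (m' := v'.m) (n' := v'.n)
    (p' := v'.p) (by exact_mod_cast hm) (by exact_mod_cast hn') (by exact_mod_cast hp')
  rw [hE, hc, hd']
  have hX' : (j : ℤ) + v'.X + v.z ≤ v.X + v'.z + v.c + 2 := by exact_mod_cast hX
  have hI' : (o : ℤ) + ra' ≤ I + j + ra := by exact_mod_cast hI
  have hnn : 3 * (P.f : ℤ) + v.c + v.m + 4 * P.K + 100 ≤ 2 * v.n := by exact_mod_cast hn
  have hm' : (v'.m : ℤ) + 1 = v.m := by exact_mod_cast hm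
  have hdf : (v.d : ℤ) ≤ P.f := by exact_mod_cast hd
  have h4 := le_max_right (0 : ℤ) ((v.c : ℤ) + v.m - P.f)
  have e1 : ((o + 1 : ℕ) : ℤ) = o + 1 := by push_cast; ring
  rw [e1]
  nlinarith

theorem min_add_max (c f : ℤ) : min c f + max 0 (c - f) = c := by
  rcases le_total c f with h | h
  · rw [min_eq_left h, max_eq_left (by linarith)]
    ring
  · rw [min_eq_right h, max_eq_right (by linarith)]
    ring

theorem Pee_T {P : Par} {o ra ra' I j : ℕ} {v v' : Vd} (hE : v'.E = v.E) (hm : v'.m + 1 = v.m)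
    (hc : v'.c = v.c) (hX : j + v'.X + v.z ≤ v.X + v'.z + v.c + 2) (hI : o + ra' ≤ I + j + ra) :
    Pee P (o + 1) ra v + 8 * v.E ≤ Pee P o ra' v' + 8 * I + 8 * v.m + 16 := by
  unfold Pee pQ
  have e1 : ((o + 1 : ℕ) : ℤ) = o + 1 := by push_cast; ring
  rw [e1]
  have h1 := pP_m (f := P.f) (m := v.m) (c := v.c) (z := v.z) (X := v.X) (o := o) (m' := v'.m)
    (z' := v'.z) (X' := v'.X) (by exact_mod_cast hm)
  have h2 : pP P.f v.m v.c v.z v.X (o + 1) = pP P.f v.m v.c v.z v.X o + 8 * min (v.c : ℤ) P.f := by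
    unfold pP
    ring
  have h3 := min_add_max v.c P.f
  rw [hE, hc, h2]
  have hX' : (j : ℤ) + v'.X + v.z ≤ v.X + v'.z + v.c + 2 := by exact_mod_cast hX
  have hI' : (o : ℤ) + ra' ≤ I + j + ra := by exact_mod_cast hI
  nlinarith

/-! ### attacks which do not change the tops -/

theorem pQ_L {o ra ra' I E : ℕ} (hI : o + ra' ≤ I + E + ra) :
    pQ (o + 1 : ℕ) E ra ≤ pQ o E ra' + 8 * I + 4 := by
  unfold pQ
  have hI' : (o : ℤ) + ra' ≤ I + E + ra := by exact_mod_cast hI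
  push_cast
  linarith

/-- a left attack -/
theorem Psi_L {P : Par} {o ra ra' I : ℕ} {v : Vd} (hI : o + ra' ≤ I + v.E + ra) :
    Psi P (o + 1) ra v ≤ Psi P o ra' v + 8 * I + 4 := by
  unfold Psi
  linarith [pQ_L hI]

/-- a left attack -/
theorem Vee_L {P : Par} {o ra ra' I : ℕ} {v : Vd} (hI : o + ra' ≤ I + v.E + ra) :
    Vee P (o + 1) ra v ≤ Vee P o ra' v + 8 * I + 4 := by
  unfold Vee
  linarith [pQ_L hI]

/-- a left attack -/
theorem Pee_L {P : Par} {o ra ra' I : ℕ} {v : Vd} (hI : o + ra' ≤ I + v.E + ra) :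
    Pee P (o + 1) ra v + 8 * min (v.c : ℤ) P.f ≤ Pee P o ra' v + 8 * I + 4 := by
  unfold Pee
  have h := pQ_L hI
  have h2 : pP P.f v.m v.c v.z v.X (o + 1 : ℕ) =
      pP P.f v.m v.c v.z v.X o + 8 * min (v.c : ℤ) P.f := by
    unfold pP
    push_cast
    ring
  linarith

theorem pQ_h {o ra ra' I E : ℕ} (hI : o + 1 + ra' ≤ I + ra) :
    pQ (o + 1 : ℕ) E ra + 8 * E + 4 ≤ pQ o E ra' + 8 * I := by
  unfold pQ
  have hI' : (o : ℤ) + 1 + ra' ≤ I + ra := by exact_mod_cast hI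
  push_cast
  linarith

/-- an attack of a left element -/
theorem Psi_h {P : Par} {o ra ra' I : ℕ} {v v' : Vd} (hE : v'.E = v.E) (hm : v'.m = v.m)
    (hc : v'.c = v.c) (hz : v'.z = v.z) (hX : v'.X = v.X) (hI : o + 1 + ra' ≤ I + ra) :
    Psi P (o + 1) ra v + 8 * v.E + 4 ≤ Psi P o ra' v' + 8 * I := by
  unfold Psi
  rw [hE, hm, hc, hz, hX]
  linarith [pQ_h (E := v.E) hI]

/-- an attack of a left element -/
theorem Vee_h {P : Par} {o ra ra' I : ℕ} {v v' : Vd} (hE : v'.E = v.E) (hm : v'.m = v.m)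
    (hc : v'.c = v.c) (hz : v'.z = v.z) (hX : v'.X = v.X) (hI : o + 1 + ra' ≤ I + ra)
    (hn : v'.n = v.n + 1) (hd' : v'.d = v.d) (hp : v'.p = v.p) (hd : v.d ≤ P.f)
    (hw : v.m ≤ v.E + v.w) :
    Vee P (o + 1) ra v + 4 ≤ Vee P o ra' v' + 8 * I + 8 * v.w := by
  unfold Vee
  rw [hE, hm, hc, hz, hX, hd', hp, hn]
  have h1 := pQ_h (E := v.E) hI
  have h2 : pA P.f v.m (v.n + 1 : ℕ) v.d v.p = pA P.f v.m v.n v.d v.p + 8 * (v.d + v.m - P.f) := by
    unfold pA
    push_cast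
    ring
  have h3 : (v.d : ℤ) ≤ P.f := by exact_mod_cast hd
  have h4 : (v.m : ℤ) ≤ v.E + v.w := by exact_mod_cast hw
  linarith

/-- an attack of a left element -/
theorem Pee_h {P : Par} {o ra ra' I : ℕ} {v v' : Vd} (hE : v'.E = v.E) (hm : v'.m = v.m)
    (hc : v'.c = v.c) (hz : v'.z = v.z) (hX : v'.X = v.X) (hI : o + 1 + ra' ≤ I + ra) :
    Pee P (o + 1) ra v + 8 * v.E + 4 + 8 * min (v.c : ℤ) P.f ≤ Pee P o ra' v' + 8 * I := by
  unfold Pee
  rw [hE, hm, hc, hz, hX]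
  have h2 : pP P.f v.m v.c v.z v.X (o + 1 : ℕ) =
      pP P.f v.m v.c v.z v.X o + 8 * min (v.c : ℤ) P.f := by
    unfold pP
    push_cast
    ring
  linarith [pQ_h (E := v.E) hI]

/-! ### money and the window -/

theorem pQ_ra {o ra ra' : ℕ} {E : ℤ} : pQ o E ra' = pQ o E ra + 8 * ((ra : ℤ) - ra') := by
  unfold pQ
  ring

/-- the debt of the window changes -/
theorem Psi_ra {P : Par} {o ra ra' : ℕ} {v : Vd} :
    Psi P o ra' v = Psi P o ra v + 8 * ((ra : ℤ) - ra') := by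
  unfold Psi
  rw [pQ_ra (ra := ra)]
  ring

/-- the debt of the window changes -/
theorem Vee_ra {P : Par} {o ra ra' : ℕ} {v : Vd} :
    Vee P o ra' v = Vee P o ra v + 8 * ((ra : ℤ) - ra') := by
  unfold Vee
  rw [pQ_ra (ra := ra)]
  ring

/-- the debt of the window changes -/
theorem Pee_ra {P : Par} {o ra ra' : ℕ} {v : Vd} :
    Pee P o ra' v = Pee P o ra v + 8 * ((ra : ℤ) - ra') := by
  unfold Pee
  rw [pQ_ra (ra := ra)]
  ring

theorem pQ_E {o E E' ra : ℕ} (hE : E' + 1 = E) : pQ o E' ra = pQ o E ra + 8 * o := by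
  unfold pQ
  rw [← hE]
  push_cast
  ring

/-- a level is credited (r5f; also the first half of `opn`) -/
theorem Psi_E {P : Par} {o ra : ℕ} {v v' : Vd} (hE : v'.E + 1 = v.E) (hm : v'.m = v.m)
    (hc : v'.c = v.c) (hz : v'.z = v.z) (hX : v'.X = v.X) :
    Psi P o ra v' = Psi P o ra v + 8 * o := by
  unfold Psi
  rw [hm, hc, hz, hX, pQ_E hE]
  ring

/-- a level is credited (r5f; also the first half of `opn`) -/
theorem Vee_E {P : Par} {o ra : ℕ} {v v' : Vd} (hE : v'.E + 1 = v.E) (hm : v'.m = v.m)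
    (hc : v'.c = v.c) (hz : v'.z = v.z) (hX : v'.X = v.X) (hn : v'.n = v.n) (hd : v'.d = v.d)
    (hp : v'.p = v.p) : Vee P o ra v' = Vee P o ra v + 8 * o := by
  unfold Vee
  rw [hm, hc, hz, hX, hn, hd, hp, pQ_E hE]
  ring

/-- a level is credited (r5f; also the first half of `opn`) -/
theorem Pee_E {P : Par} {o ra : ℕ} {v v' : Vd} (hE : v'.E + 1 = v.E) (hm : v'.m = v.m)
    (hc : v'.c = v.c) (hz : v'.z = v.z) (hX : v'.X = v.X) :
    Pee P o ra v' = Pee P o ra v + 8 * o := by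
  unfold Pee
  rw [hm, hc, hz, hX, pQ_E hE]
  ring

/-- `opn`: the window is opened, all undecided elements are in it -/
theorem Psi_opn {P : Par} {o : ℕ} {v v' : Vd} (hE : v'.E + 1 = v.E) (hm : v'.m = v.m)
    (hc : v'.c = v.c) (hz : v'.z = v.z) (hX : v'.X = v.X) :
    Psi P o o v' = Psi P o 0 v := by
  rw [Psi_ra (ra := 0), Psi_E hE hm hc hz hX]
  push_cast
  ring

/-- `opn`: the window is opened, all undecided elements are in it -/
theorem Vee_opn {P : Par} {o : ℕ} {v v' : Vd} (hE : v'.E + 1 = v.E) (hm : v'.m = v.m)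
    (hc : v'.c = v.c) (hz : v'.z = v.z) (hX : v'.X = v.X) (hn : v'.n = v.n) (hd : v'.d = v.d)
    (hp : v'.p = v.p) : Vee P o o v' = Vee P o 0 v := by
  rw [Vee_ra (ra := 0), Vee_E hE hm hc hz hX hn hd hp]
  push_cast
  ring

/-- `opn`: the window is opened, all undecided elements are in it -/
theorem Pee_opn {P : Par} {o : ℕ} {v v' : Vd} (hE : v'.E + 1 = v.E) (hm : v'.m = v.m)
    (hc : v'.c = v.c) (hz : v'.z = v.z) (hX : v'.X = v.X) :
    Pee P o o v' = Pee P o 0 v := by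
  rw [Pee_ra (ra := 0), Pee_E hE hm hc hz hX]
  push_cast
  ring

/-- an attack from the window (`k = 0` for a short one, `k + ν + 1 = cb` for a long one) -/
theorem pQ_ws {o ra ra' I E E' k : ℕ} (hE : E' + 1 = E) (hI : ra' ≤ I + ra + k) :
    pQ (o + 1 : ℕ) E ra + 8 * E ≤ pQ o E' ra' + 8 * I + 8 * k + 4 := by
  unfold pQ
  have hI' : (ra' : ℤ) ≤ I + ra + k := by exact_mod_cast hI
  rw [← hE]
  push_cast
  linarith

/-- an attack from the window -/
theorem Psi_ws {P : Par} {o ra ra' I k : ℕ} {v v' : Vd} (hE : v'.E + 1 = v.E) (hm : v'.m = v.m)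
    (hc : v'.c = v.c) (hz : v'.z = v.z) (hX : v'.X = v.X) (hI : ra' ≤ I + ra + k) :
    Psi P (o + 1) ra v + 8 * v.E ≤ Psi P o ra' v' + 8 * I + 8 * k + 4 := by
  unfold Psi
  rw [hm, hc, hz, hX]
  linarith [pQ_ws (o := o) hE hI]

/-- an attack from the window -/
theorem Vee_ws {P : Par} {o ra ra' I k : ℕ} {v v' : Vd} (hE : v'.E + 1 = v.E) (hm : v'.m = v.m)
    (hc : v'.c = v.c) (hz : v'.z = v.z) (hX : v'.X = v.X) (hn : v'.n = v.n) (hd : v'.d = v.d)
    (hp : v'.p = v.p) (hI : ra' ≤ I + ra + k) :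
    Vee P (o + 1) ra v + 8 * v.E ≤ Vee P o ra' v' + 8 * I + 8 * k + 4 := by
  unfold Vee
  rw [hm, hc, hz, hX, hn, hd, hp]
  linarith [pQ_ws (o := o) hE hI]

/-- an attack from the window -/
theorem Pee_ws {P : Par} {o ra ra' I k : ℕ} {v v' : Vd} (hE : v'.E + 1 = v.E) (hm : v'.m = v.m)
    (hc : v'.c = v.c) (hz : v'.z = v.z) (hX : v'.X = v.X) (hI : ra' ≤ I + ra + k) :
    Pee P (o + 1) ra v + 8 * v.E + 8 * min (v.c : ℤ) P.f ≤
      Pee P o ra' v' + 8 * I + 8 * k + 4 := by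
  unfold Pee
  rw [hm, hc, hz, hX]
  have h2 : pP P.f v.m v.c v.z v.X (o + 1 : ℕ) =
      pP P.f v.m v.c v.z v.X o + 8 * min (v.c : ℤ) P.f := by
    unfold pP
    push_cast
    ring
  linarith [pQ_ws (o := o) hE hI]

end Pool.Agent.OCN.YC
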