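import Pool.Agent.Lib_helper48.OCN.YcBs
import Pool.Agent.Lib_helper92.OCN.YcJR

/-!
# MP_aeb124_co: the number game, the attacks of the base elements and of the main starts (st_T, st_F)
-/

set_option autoImplicit false

namespace Pool.Agent.OCN.YC

variable {P : Par} {v : Vd} {o u μ : ℕ} {β : Multiset ℕ}

theorem T12_al {f : ℕ} {v v' : Vd} (hw : v'.w = v.w) (hc : v'.c = v.c) (hm : v'.m ≤ v.m) :
    al f v ≤ al f v' := by
  unfold al
  rw [hw, hc]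
  split_ifs
  · exact le_rfl
  · have h1 : (v'.m : ℤ) ≤ v.m := by exact_mod_cast hm
    have h2 : max 0 ((v.c : ℤ) - v.m) ≤ max 0 ((v.c : ℤ) - v'.m) :=
      max_le_max le_rfl (by linarith)
    have h3 : min (max 0 ((v.c : ℤ) - v.m)) (f : ℤ) ≤ min (max 0 ((v.c : ℤ) - v'.m)) (f : ℤ) :=
      min_le_min h2 le_rfl
    linarith

theorem T12_nd {v v' : Vd} {need : ℤ} (hn : v.n ≤ v'.n) (hd : v'.d = v.d) (hp : v.p ≤ v'.p) :
    nd v' need ≤ nd v need := by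
  unfold nd
  have h1 : v.n * v.d + v.p ≤ v'.n * v'.d + v'.p := by
    rw [hd]
    exact add_le_add (Nat.mul_le_mul_right _ hn) hp
  have h2 : (v.n : ℤ) * v.d + v.p ≤ (v'.n : ℤ) * v'.d + v'.p := by exact_mod_cast h1
  have h3 : max 0 (need - ((v'.n : ℤ) * v'.d + v'.p)) ≤ max 0 (need - ((v.n : ℤ) * v.d + v.p)) :=
    max_le_max le_rfl (by linarith)
  linarith

/-- all the potentials -/
theorem T12_pot {j : ℕ} {v v' : Vd} (h : Sn P (o + 1) u μ β v) (hμ : μ + 1 ≤ v.E)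
    (hy : v.c ≤ P.f + v.m + 13)
    (hE : v'.E = v.E) (hw : v'.w = v.w) (hc : v'.c = v.c) (hm : v'.m + 1 = v.m)
    (hX : j + v'.X + v.z ≤ v.X + v'.z + v.c + 2)
    (hA : v'.md = true → v.md = true ∧ v'.n = v.n + 1 ∧ v'.d = v.d ∧ v'.p ≤ v.p + 1)
    {ra ra' I : ℕ} (hI : o + ra' ≤ I + ra + j) :
    Psi P (o + 1) ra v ≤ Psi P o ra' v' + 8 * I + 100 ∧
        (v.c ≤ P.f + v.m → Psi P (o + 1) ra v + 8 * v.c ≤ Psi P o ra' v' + 8 * I) ∧
        (v'.md = true → Vee P (o + 1) ra v + 8 * P.f + 8 * v.m + 8 * P.K + 300 ≤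
          Vee P o ra' v' + 8 * I) ∧
        Pee P (o + 1) ra v + TP P o v' + 40 * P.K ≤ Pee P o ra' v' + TP P (o + 1) v + 8 * I := by
  have hI' : o + ra' ≤ I + j + ra := by omega
  have hmE : (v.m : ℤ) ≤ v.E + v.w := by
    have := h.hm
    omega
  have hwK : (v.w : ℤ) ≤ P.K := by exact_mod_cast h.hw
  refine ⟨?_, fun hcf => ?_, fun hmd => ?_, ?_⟩
  · have := Psi_T1 (P := P) hE hm hc hX hI' hy
    linarith
  · have := Psi_T2 (P := P) hE hm hc hX hI' hcf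
    omega
  · obtain ⟨h1, h2, h3, h4⟩ := hA hmd
    have := Vee_T (P := P) hE hm hc hX hI' h2 h3 h4 (h.hA h1).2.1 h.hn
    linarith
  · have h1 := Pee_T (P := P) hE hm hc hX hI'
    have h2 : TP P (o + 1) v = TP P o v' + 80 * P.K + 8 * v.w := by
      unfold TP
      rw [hw, hc]
      have : (v.m : ℤ) = v'.m + 1 := by exact_mod_cast hm.symm
      rw [this]
      push_cast
      ring
    have h3 : (52 : ℤ) ≤ P.K := by
      have h4 := P.hK
      have h5 := P.hR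
      have h6 : P.R0 + 1 ≤ kap P.Q P.R0 := by
        unfold kap
        exact Nat.add_le_add_right (Nat.le_add_right _ _) 1
      omega
    linarith

/-- the new virtual data are fine -/
theorem T12_main {j : ℕ} {β' : Multiset ℕ} {v v' : Vd} (h : Sn P (o + 1) u μ β v)
    (hM : μ + 1 ≤ v.E) (hy : v.c ≤ P.f + v.m + 13)
    (hR : Rp P.f v' β') (hcard : Multiset.card β ≤ Multiset.card β')
    (hE : v'.E = v.E) (hw : v'.w = v.w) (hc : v'.c = v.c) (hm : v'.m + 1 = v.m)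
    (hn : v'.n = v.n + 1) (hz1 : v'.z + 1 ≤ v.m) (hz2 : v'.z ≤ v.z)
    (hX : j + v'.X + v.z ≤ v.X + v'.z + v.c + 2) (hX2 : v'.X ≤ v.X + v.c)
    (hmd : (v'.md = true ∧ v.md = true ∧ v'.d = v.d ∧ v.p ≤ v'.p ∧ v'.p ≤ v.p + 1 ∧
      P.f ≤ v.d + v'.m ∧ (v'.p = 0 ∨ v.d + 1 ≤ v.c)) ∨ (v'.md = false ∧ v'.m ≤ P.f)) :
    Sn P o u (μ + 1) β' v' ∧ v'.E = v.E ∧ v'.w = v.w ∧ v'.c = v.c ∧
      v'.m + 1 = v.m ∧ v'.X ≤ v.X + v.c ∧ j + v'.X ≤ v.X + v.c + 2 ∧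
      (v'.md = true → v.md = true) ∧ al P.f v ≤ al P.f v' ∧
      (∀ need : ℤ, v'.md = true → nd v' need ≤ nd v need) ∧
      ∀ ra ra' I : ℕ, o + ra' ≤ I + ra + j →
        Psi P (o + 1) ra v ≤ Psi P o ra' v' + 8 * I + 100 ∧
        (v.c ≤ P.f + v.m → Psi P (o + 1) ra v + 8 * v.c ≤ Psi P o ra' v' + 8 * I) ∧
        (v'.md = true → Vee P (o + 1) ra v + 8 * P.f + 8 * v.m + 8 * P.K + 300 ≤
          Vee P o ra' v' + 8 * I) ∧
        Pee P (o + 1) ra v + TP P o v' + 40 * P.K ≤ Pee P o ra' v' + TP P (o + 1) v + 8 * I := by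
  have hhm := h.hm
  have hhw := h.hw
  have hhz0 := h.hz0
  have hhn := h.hn
  have hhN := h.hN
  have hho := h.ho
  have hhE := h.hE
  have hhW := h.hW
  have hA : v'.md = true → v.md = true ∧ v'.d = v.d ∧ v.p ≤ v'.p ∧ v'.p ≤ v.p + 1 ∧
      P.f ≤ v.d + v'.m ∧ (v'.p = 0 ∨ v.d + 1 ≤ v.c) := by
    intro hh
    rcases hmd with g | g
    · exact g.2
    · exact absurd (hh.symm.trans g.1) (by decide)
  have hH : v'.md = false → v'.m ≤ P.f := by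
    intro hh
    rcases hmd with g | g
    · exact absurd (hh.symm.trans g.1) (by decide)
    · exact g.2
  refine ⟨⟨h.hf, h.hnl, by omega, by omega, by omega, by omega, by omega, fun hh => ?_, hH,
    by omega, by omega, by omega, by omega, by omega, hR⟩, hE, hw, hc, hm, hX2, by omega,
    fun hh => (hA hh).1, T12_al hw hc (by omega), fun need hh => ?_, fun ra ra' I hI => ?_⟩
  · obtain ⟨g1, g2, g3, g4, g5, g6⟩ := hA hh
    obtain ⟨a1, a2, a3, a4, a5⟩ := h.hA g1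
    exact ⟨by omega, by omega, by omega, by omega, by omega⟩
  · obtain ⟨g1, g2, g3, g4, g5, g6⟩ := hA hh
    exact T12_nd (by omega) g2 g3
  · refine T12_pot h hM hy hE hw hc hm hX (fun hh => ?_) hI
    obtain ⟨g1, g2, g3, g4, g5, g6⟩ := hA hh
    exact ⟨g1, hn, g2, g4⟩

theorem T12_if (v : Vd) : v.p ≤ (if v.d + 1 ≤ v.c then v.p + 1 else v.p) ∧
    (if v.d + 1 ≤ v.c then v.p + 1 else v.p) ≤ v.p + 1 ∧
    ((v.p = 0 ∨ v.d + 1 ≤ v.c) →
      (if v.d + 1 ≤ v.c then v.p + 1 else v.p) = 0 ∨ v.d + 1 ≤ v.c) := by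
  split_ifs with h
  · exact ⟨by omega, le_rfl, fun _ => Or.inr h⟩
  · exact ⟨le_rfl, by omega, fun g => g⟩

/-- attack of a base element -/
theorem st_T {j : ℕ} {γ : Multiset ℕ} (h : Sn P (o + 1) u μ (j ::ₘ γ) v) (hM : μ + 1 ≤ v.E)
    (hy : v.c ≤ P.f + v.m + 13) :
    ∃ v' : Vd, Sn P o u (μ + 1) (0 ::ₘ γ) v' ∧ v'.E = v.E ∧ v'.w = v.w ∧ v'.c = v.c ∧
      v'.m + 1 = v.m ∧ v'.X ≤ v.X + v.c ∧ j + v'.X ≤ v.X + v.c + 2 ∧
      (v'.md = true → v.md = true) ∧ al P.f v ≤ al P.f v' ∧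
      (∀ need : ℤ, v'.md = true → nd v' need ≤ nd v need) ∧
      ∀ ra ra' I : ℕ, o + ra' ≤ I + ra + j →
        Psi P (o + 1) ra v ≤ Psi P o ra' v' + 8 * I + 100 ∧
        (v.c ≤ P.f + v.m → Psi P (o + 1) ra v + 8 * v.c ≤ Psi P o ra' v' + 8 * I) ∧
        (v'.md = true → Vee P (o + 1) ra v + 8 * P.f + 8 * v.m + 8 * P.K + 300 ≤
          Vee P o ra' v' + 8 * I) ∧
        Pee P (o + 1) ra v + TP P o v' + 40 * P.K ≤ Pee P o ra' v' + TP P (o + 1) v + 8 * I := by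
  have hm1 : 1 ≤ v.m := by
    have := h.hm
    omega
  have hm' : v.m - 1 + 1 = v.m := by omega
  have hcard : Multiset.card (j ::ₘ γ) ≤ Multiset.card (0 ::ₘ γ) := by
    rw [Multiset.card_cons, Multiset.card_cons]
  rcases Bool.eq_false_or_eq_true v.md with hmd | hmd
  · obtain ⟨a1, a2, a3, a4, a5⟩ := h.hA hmd
    by_cases hdm : P.f ≤ v.d + (v.m - 1)
    · obtain ⟨z', X', g1, g2, g3, g4, g5, g6⟩ := rp_T_A h.hR hmd hm1 h.hz a1
      have hif := T12_if v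
      exact ⟨_, T12_main h hM hy g6 hcard rfl rfl rfl hm' rfl g1 g2 g4 g5
        (Or.inl ⟨hmd, hmd, rfl, hif.1, hif.2.1, hdm, hif.2.2 a5⟩)⟩
    · have hdm' : v.d + v.m = P.f := by omega
      obtain ⟨z', X', g1, g2, g3, g4, g5, g6⟩ := rp_T_AH h.hR hmd hm1 h.hz a1 hdm'
      exact ⟨_, T12_main h hM hy g6 hcard rfl rfl rfl hm' rfl g1 g2 g4 g5
        (Or.inr ⟨rfl, by show v.m - 1 ≤ P.f; omega⟩)⟩
  · have a1 := h.hH hmd
    obtain ⟨z', X', g1, g2, g3, g4, g5, g6⟩ := rp_T_H h.hR hmd hm1 h.hz a1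
    exact ⟨_, T12_main h hM hy g6 hcard rfl rfl rfl hm' rfl g1 g2 g4 g5
      (Or.inr ⟨hmd, by show v.m - 1 ≤ P.f; omega⟩)⟩

/-- attack of a main start -/
theorem st_F (h : Sn P (o + 1) u μ β v) (hM : μ + 1 ≤ v.E) (hy : v.c ≤ P.f + v.m + 13) :
    ∃ v' : Vd, Sn P o u (μ + 1) β v' ∧ v'.E = v.E ∧ v'.w = v.w ∧ v'.c = v.c ∧
      v'.m + 1 = v.m ∧ v'.X ≤ v.X + v.c ∧
      (v'.md = true → v.md = true) ∧ al P.f v ≤ al P.f v' ∧
      (∀ need : ℤ, v'.md = true → nd v' need ≤ nd v need) ∧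
      ∀ ra ra' I : ℕ, o + 1 + ra' ≤ I + ra →
        Psi P (o + 1) ra v ≤ Psi P o ra' v' + 8 * I + 100 ∧
        (v.c ≤ P.f + v.m → Psi P (o + 1) ra v + 8 * v.c ≤ Psi P o ra' v' + 8 * I) ∧
        (v'.md = true → Vee P (o + 1) ra v + 8 * P.f + 8 * v.m + 8 * P.K + 300 ≤
          Vee P o ra' v' + 8 * I) ∧
        Pee P (o + 1) ra v + TP P o v' + 40 * P.K ≤ Pee P o ra' v' + TP P (o + 1) v + 8 * I := by
  have hm1 : 1 ≤ v.m := by
    have := h.hm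
    omega
  have hm' : v.m - 1 + 1 = v.m := by omega
  have hz := h.hz
  have key : ∃ v' : Vd, Sn P o u (μ + 1) β v' ∧ v'.E = v.E ∧ v'.w = v.w ∧ v'.c = v.c ∧
      v'.m + 1 = v.m ∧ v'.X ≤ v.X + v.c ∧ 0 + v'.X ≤ v.X + v.c + 2 ∧
      (v'.md = true → v.md = true) ∧ al P.f v ≤ al P.f v' ∧
      (∀ need : ℤ, v'.md = true → nd v' need ≤ nd v need) ∧
      ∀ ra ra' I : ℕ, o + ra' ≤ I + ra + 0 →
        Psi P (o + 1) ra v ≤ Psi P o ra' v' + 8 * I + 100 ∧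
        (v.c ≤ P.f + v.m → Psi P (o + 1) ra v + 8 * v.c ≤ Psi P o ra' v' + 8 * I) ∧
        (v'.md = true → Vee P (o + 1) ra v + 8 * P.f + 8 * v.m + 8 * P.K + 300 ≤
          Vee P o ra' v' + 8 * I) ∧
        Pee P (o + 1) ra v + TP P o v' + 40 * P.K ≤
          Pee P o ra' v' + TP P (o + 1) v + 8 * I := by
    rcases Bool.eq_false_or_eq_true v.md with hmd | hmd
    · obtain ⟨a1, a2, a3, a4, a5⟩ := h.hA hmd
      by_cases hdm : P.f ≤ v.d + (v.m - 1)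
      · have g6 := rp_F_A h.hR hmd hm1 h.hz
        have hif := T12_if v
        exact ⟨_, T12_main h hM hy g6 le_rfl rfl rfl rfl hm' rfl
          (by show min v.z (v.m - 1) + 1 ≤ v.m; omega)
          (by show min v.z (v.m - 1) ≤ v.z; omega)
          (by show 0 + (v.X + (v.c - (v.d + 1))) + v.z ≤ v.X + min v.z (v.m - 1) + v.c + 2; omega)
          (by show v.X + (v.c - (v.d + 1)) ≤ v.X + v.c; omega)
          (Or.inl ⟨hmd, hmd, rfl, hif.1, hif.2.1, hdm, hif.2.2 a5⟩)⟩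
      · have hdm' : v.d + v.m = P.f := by omega
        have g6 := rp_F_AH h.hR hmd hm1 h.hz hdm'
        exact ⟨_, T12_main h hM hy g6 le_rfl rfl rfl rfl hm' rfl
          (by show min v.z (v.m - 1) + 1 ≤ v.m; omega)
          (by show min v.z (v.m - 1) ≤ v.z; omega)
          (by show 0 + (v.X + (v.c - (v.d + 1))) + v.z ≤ v.X + min v.z (v.m - 1) + v.c + 2; omega)
          (by show v.X + (v.c - (v.d + 1)) ≤ v.X + v.c; omega)
          (Or.inr ⟨rfl, by show v.m - 1 ≤ P.f; omega⟩)⟩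
    · have a1 := h.hH hmd
      have g6 := rp_F_H h.hR hmd hm1 h.hz
      exact ⟨_, T12_main h hM hy g6 le_rfl rfl rfl rfl hm' rfl
        (by show min v.z (v.m - 1) + 1 ≤ v.m; omega)
        (by show min v.z (v.m - 1) ≤ v.z; omega)
        (by
          show 0 + (v.X + (v.c + v.m - (P.f + 1))) + v.z ≤ v.X + min v.z (v.m - 1) + v.c + 2
          omega)
        (by show v.X + (v.c + v.m - (P.f + 1)) ≤ v.X + v.c; omega)
        (Or.inr ⟨hmd, by show v.m - 1 ≤ P.f; omega⟩)⟩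
  obtain ⟨v', k1, k2, k3, k4, k5, k6, _, k7, k8, k9, k10⟩ := key
  exact ⟨v', k1, k2, k3, k4, k5, k6, k7, k8, k9, fun ra ra' I hI => k10 ra ra' I (by omega)⟩

end Pool.Agent.OCN.YC
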