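import Pool.Agent.Lib_helper48.OCN.YcJ_Cm
import Pool.Agent.Lib_helper92.OCN.YcJ_C1
import Pool.Agent.Lib_helper68.OCN.YcJ_Cend
import Pool.Agent.Lib_helper47.OCN.YcJ_Z2

/-!
# MP_aeb124_co: number game, block C
-/

set_option autoImplicit false

namespace Pool.Agent.OCN.YC

variable {P : Par}

/-- closed payment -/
theorem block_C (hZ : HZ P) (N : ℕ) (hC : HC P N) (hS : HS P N) (hL : HL P N) :
    HC P (N + 1) := by
  intro σ I v h hN
  by_cases hM : σ.μ = v.E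
  · exact hZ σ I (toZ_C h hM)
  have hM1 : σ.μ + 1 ≤ v.E := by
    have := h.sn.hμ
    omega
  rcases C_step1 h hM1 with hg | ⟨σ', I', v', c, h1, h2, h3, h4, h5, h6, h7, h8, h9, h10, h11, h12⟩
  · exact hg
  have hN' : v'.E + v'.w ≤ N + 1 := by omega
  have hM' : σ'.μ + 1 ≤ v'.E := by omega
  have hg : Good P σ' I' := by
    by_cases hcase : 1 ≤ v'.w ∨ P.W + 1 ≤ σ'.u + v'.E ∨ 1 ≤ σ'.μ
    · exact C_mid N hC hS h3 h10 h11 h12 hM' hN' hcase
    · have hE := h3.sn.hE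
      exact C_end N hL h3 (by omega) (by omega) (by omega) (by omega) h10 h12 (by omega)
  obtain ⟨σ'', c', g1, g2, g3⟩ := hg
  exact ⟨σ'', c + c', h1.trans g1, by omega, g3⟩

end Pool.Agent.OCN.YC
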