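import Pool.Agent.Lib_helper16.OCN.YcJT
import Pool.Agent.Lib_helper28.OCN.YcB1

/-!
# MP_aeb124_co: number game, block C, the middle part
-/

set_option autoImplicit false

namespace Pool.Agent.OCN.YC

variable {P : Par}

theorem Cm_good {σ σ' : St} {I c : ℕ} (h : Pays σ σ' c) (hc : c ≤ I) (hg : Good P σ' (I - c)) :
    Good P σ I := by
  obtain ⟨σ'', c', h1, h2, h3⟩ := hg
  exact ⟨σ'', c + c', h.trans h1, by omega, h3⟩

theorem Cm_al {f : ℕ} {v : Vd} (h : v.w = 0) : al f v = 0 := by
  unfold al
  rw [if_pos h]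

/-- a virtual level is removed, the potential `Pee` -/
theorem Cm_P {o ra : ℕ} {v v' : Vd} (hE : v'.E + 1 = v.E) (hm : v'.m + 1 = v.m)
    (hc : v'.c = v.c) (hz : v.z = 0) (hX : v.X = 0) (hX' : v'.X ≤ v.c) (hcm : v.c + v.m ≤ o) :
    Pee P o ra v ≤ Pee P o ra v' := by
  unfold Pee pP pQ
  rw [hc, hz, hX, ← hE, ← hm]
  have h1 : min (v.c : ℤ) P.f + max 0 ((v.c : ℤ) - P.f) = v.c := by
    rcases le_total (v.c : ℤ) P.f with h | h
    · rw [min_eq_left h, max_eq_left (by linarith)]
      ring
    · rw [min_eq_right h, max_eq_right (by linarith)]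
      ring
  have h2 : (v'.X : ℤ) ≤ v.c := by exact_mod_cast hX'
  have h3 : (v.c : ℤ) + v.m ≤ o := by exact_mod_cast hcm
  have h4 : (v'.m : ℤ) + 1 = v.m := by exact_mod_cast hm
  have h5 : (0 : ℤ) ≤ max 0 ((v.c : ℤ) - P.f) := le_max_left _ _
  push_cast
  nlinarith

/-- no debts: the cases `w ≥ 1`, `W < u + E`, `μ ≥ 1` -/
theorem C_mid (N : ℕ) (hC : HC P N) (hS : HS P N) {σ : St} {I : ℕ} {v : Vd} (h : JC P σ I v)
    (hX : v.X = 0) (hz : v.z = 0) (hc : v.c ≤ P.f + v.m) (hM : σ.μ + 1 ≤ v.E)
    (hN : v.E + v.w ≤ N + 1) (hcase : 1 ≤ v.w ∨ P.W + 1 ≤ σ.u + v.E ∨ 1 ≤ σ.μ) :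
    Good P σ I := by
  obtain ⟨o, a, r, u, μ, ν, cb, β⟩ := σ
  obtain ⟨sn, ha, hI, y, yi, ps, pv, pp⟩ := h
  have ha' : a = 0 := ha
  subst ha'
  have sn' : Sn P o u μ β v := sn
  have hI' : I ≤ o + 1 := hI
  have hM' : μ + 1 ≤ v.E := hM
  have ps' : T4 P o ≤ Psi P o 0 v + 8 * I + al P.f v := ps
  have pv' : v.md = true → T4 P o + nd v (v.c + P.K + 20) ≤ Vee P o 0 v + 8 * I + al P.f v := pv
  have pp' : 1 ≤ μ ∨ v.E = 0 → TP P o v ≤ Pee P o 0 v + 8 * I := pp
  rcases Nat.eq_zero_or_pos v.w with hw | hw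
  · by_cases hWE : P.W + 1 ≤ u + v.E
    · -- a virtual level is removed
      have hal0 : al P.f v = 0 := Cm_al hw
      obtain ⟨b1, b2, b3, b4⟩ := barJ (e := 0) sn' hI' (by omega) (by omega) (by
        rw [hal0] at ps'
        exact ps')
      obtain ⟨v', h1, h2, h3, h4, h5, h6, h7, h8, h9, h10, h11⟩ :=
        st_v sn' hM' hw hX hz hc hWE (by omega)
      have hK : 11 ≤ P.K := le_trans (Nat.le_add_left _ _) P.hK
      have hKo : 11 * (o : ℤ) ≤ P.K * o :=
        mul_le_mul_of_nonneg_right (by exact_mod_cast hK) (Int.natCast_nonneg _)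
      have k9 := h9 0
      have ho : (0 : ℤ) ≤ o := Int.natCast_nonneg _
      have hal : al P.f v' = 0 := Cm_al h3
      rw [hal0] at ps'
      have k1 : T4 P o ≤ Psi P o 0 v' + 8 * I := by linarith
      refine hC _ I v' ⟨h1, rfl, hI', by omega, ?_, ?_, fun hmd => ?_, fun hh => ?_⟩ (by omega)
      · have : v'.c - (P.f + v'.m) ≤ 1 := by omega
        have h12 : (v'.c + 1) * (v'.c - (P.f + v'.m)) ≤ (v'.c + 1) * 1 :=
          Nat.mul_le_mul_left _ this
        omega
      · show T4 P o ≤ Psi P o 0 v' + 8 * I + al P.f v'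
        rw [hal]
        linarith
      · have l1 := pv' (h7 hmd)
        have l2 := h10 0 hmd
        have l3 := h8 (v'.c + P.K + 20) hmd
        show T4 P o + nd v' ((v'.c : ℤ) + P.K + 20) ≤ Vee P o 0 v' + 8 * I + al P.f v'
        rw [hal]
        rw [hal0] at l1
        rw [h4] at l3 ⊢
        linarith
      · show TP P o v' ≤ Pee P o 0 v' + 8 * I
        rcases Nat.eq_zero_or_pos μ with hμ | hμ
        · have hE0 : v'.E = 0 := by
            rcases hh with hh | hh
            · have hh' : 1 ≤ μ := hh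
              omega
            · exact hh
          have hm1 := h1.hm
          have hm2 := sn'.hm
          refine P_of_Psi (e := 0) h3 (by omega) (by omega) (by omega) (by omega) ?_ (by omega)
            (by linarith)
          have : (v'.X : ℤ) ≤ o := by omega
          push_cast
          linarith
        · have l1 := pp' (Or.inl hμ)
          have l2 := Cm_P (P := P) (o := o) (ra := 0) h2 h5 h4 hz hX h6 (by omega)
          have l3 : TP P o v' = TP P o v := by
            unfold TP
            rw [h3, hw]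
            push_cast
            ring
          rw [l3]
          linarith
    · -- a main start is opened
      have hμ : 1 ≤ μ := by
        rcases hcase with hh | hh | hh
        · omega
        · exact absurd hh hWE
        · exact hh
      obtain ⟨μ', rfl⟩ : ∃ μ', μ = μ' + 1 := ⟨μ - 1, by omega⟩
      obtain ⟨g1, g2, g3, g4⟩ := st_opn sn' (by omega)
      have hR := P.hR
      have hkap : kap P.Q P.R0 = P.R0 + P.Q / P.R0 + 1 := rfl
      have hR' : 40 ≤ P.R0 := P.hR
      have hJS : JS P ⟨o, o, 1, u + 1, μ', 1, 0, β⟩ I { v with E := v.E - 1 }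
          (P.R0 + P.Q / P.R0) := by
        refine ⟨g1, rfl, le_rfl, hI', ⟨le_rfl, ?_, fun a' _ _ => ?_⟩, ?_, Or.inl ⟨rfl, ?_, hX, ?_⟩,
          ?_, fun hmd => ?_, fun hh => ?_⟩
        · rw [hkap]
          show 1 + (P.R0 + P.Q / P.R0) ≤ P.R0 + P.Q / P.R0 + 1
          exact le_of_eq (Nat.add_comm _ _)
        · show kc P.Q P.R0 1 a' ≤ P.R0 + P.Q / P.R0
          unfold kc
          rw [if_pos (by omega)]
          omega
        · show v.w < 1
          omega
        · show 1 * o + 1 ≤ o + I + 1
          omega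
        · show v.c ≤ P.f + v.m + 2
          omega
        · show T4 P o + 8 * (((1 : ℕ) : ℤ) - 1) ≤
            Psi P o (1 * o) { v with E := v.E - 1 } + 8 * I + al P.f { v with E := v.E - 1 }
          rw [one_mul, g2]
          have : al P.f { v with E := v.E - 1 } = al P.f v := rfl
          rw [this]
          push_cast
          linarith
        · show T4 P o + nd { v with E := v.E - 1 } ((v.c : ℤ) + P.K + 20) +
            8 * (((1 : ℕ) : ℤ) - 1) ≤
            Vee P o (1 * o) { v with E := v.E - 1 } + 8 * I + al P.f { v with E := v.E - 1 }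
          rw [one_mul, g3]
          have : al P.f { v with E := v.E - 1 } = al P.f v := rfl
          rw [this]
          have l1 := pv' hmd
          have l2 : nd { v with E := v.E - 1 } ((v.c : ℤ) + P.K + 20) =
              nd v ((v.c : ℤ) + P.K + 20) := rfl
          rw [l2]
          push_cast
          linarith
        · show TP P o { v with E := v.E - 1 } + 8 * (((1 : ℕ) : ℤ) - 1) ≤
            Pee P o (1 * o) { v with E := v.E - 1 } + 8 * I
          rw [one_mul, g4]
          have l1 := pp' (Or.inl (by omega))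
          have l2 : TP P o { v with E := v.E - 1 } = TP P o v := rfl
          rw [l2]
          push_cast
          linarith
      have hg := hS _ I _ _ hJS (by show v.E - 1 + v.w ≤ N; omega)
      exact Cm_good (c := 0) (Pays.single (Pay.opn o r u μ' ν cb β)) (Nat.zero_le _) hg
  · -- a window start is processed
    obtain ⟨v', h1, h2, h3, h4, h5, h6, h7, h8, h9, h10, h11⟩ := st_w sn' hM' hw hX hz hc
    refine hC _ I v' ⟨h1, rfl, hI', by omega, ?_, ?_, fun hmd => ?_, fun hh => ?_⟩ (by omega)
    · have : v'.c - (P.f + v'.m) ≤ 1 := by omega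
      have h12 : (v'.c + 1) * (v'.c - (P.f + v'.m)) ≤ (v'.c + 1) * 1 :=
        Nat.mul_le_mul_left _ this
      omega
    · have := h9 0
      show T4 P o ≤ Psi P o 0 v' + 8 * I + al P.f v'
      linarith
    · have l1 := pv' (h7 hmd)
      have l2 := h10 0 hmd
      have l3 := h8 (v'.c + P.K + 20) hmd
      show T4 P o + nd v' ((v'.c : ℤ) + P.K + 20) ≤ Vee P o 0 v' + 8 * I + al P.f v'
      rw [h4] at l3 ⊢
      linarith
    · have l1 := pp' (by
        rcases hh with hh | hh
        · exact Or.inl hh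
        · exact Or.inr (by rw [← h2]; exact hh))
      have l2 := h11 0
      show TP P o v' ≤ Pee P o 0 v' + 8 * I
      linarith

end Pool.Agent.OCN.YC
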